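import Pool.Agent.Helper65.Lat

/-! Right reversibility and condition 3, with the notions as parameters (helper file). -/

set_option autoImplicit false

namespace Pool.Agent.Helper65.Misc

/-- For a composition-closed set S of complex rational maps of degree ≥2 with a non-special member, X∘A=Y∘B is solvable in S for all A,B in S iff for all A,B some k,l≥1 give A^2k=A^k∘B^l and B^2l=B^l∘A^k. -/
theorem reversible_iff :
    ∀ (comp : RatFunc ℂ → RatFunc ℂ → RatFunc ℂ) (deg : RatFunc ℂ → ℕ)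
      (special : RatFunc ℂ → Prop),
      (∀ f g : RatFunc ℂ,
        comp f g = Polynomial.aeval g (RatFunc.num f) / Polynomial.aeval g (RatFunc.denom f)) →
      (∀ f : RatFunc ℂ, deg f = max (RatFunc.num f).natDegree (RatFunc.denom f).natDegree) →
      (∀ f : RatFunc ℂ, special f ↔
        ((∃ (ω₁ ω₂ a b : ℂ) (θ : ℂ → ℂ),
            LinearIndependent ℝ ![ω₁, ω₂] ∧
            (∃ m₁ n₁ m₂ n₂ : ℤ, a * ω₁ = (m₁ : ℂ) * ω₁ + (n₁ : ℂ) * ω₂ ∧
                a * ω₂ = (m₂ : ℂ) * ω₁ + (n₂ : ℂ) * ω₂) ∧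
            MeromorphicOn θ Set.univ ∧
            (∀ z : ℂ, θ (z + ω₁) = θ z ∧ θ (z + ω₂) = θ z) ∧
            (∃ z : ℂ, DifferentiableAt ℂ θ z ∧ deriv θ z ≠ 0) ∧
            (∀ᶠ z in Filter.codiscrete ℂ,
              RatFunc.eval (RingHom.id ℂ) (θ z) f = θ (a * z + b))) ∨
         (∃ μ : RatFunc ℂ, deg μ = 1 ∧ ∃ n : ℕ,
            (comp μ f = comp (RatFunc.X ^ n) μ ∨
             comp μ f = comp (RatFunc.X ^ n)⁻¹ μ ∨
             comp μ f = comp (algebraMap (Polynomial ℂ) (RatFunc ℂ)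
                (Polynomial.Chebyshev.T ℂ (n : ℤ))) μ ∨
             comp μ f = comp (-(algebraMap (Polynomial ℂ) (RatFunc ℂ)
                (Polynomial.Chebyshev.T ℂ (n : ℤ)))) μ)))) →
      ∀ S : Set (RatFunc ℂ),
        (∀ f ∈ S, ∀ g ∈ S, comp f g ∈ S) →
        (∀ f ∈ S, 2 ≤ deg f) →
        (∃ f ∈ S, ¬ special f) →
        ((∀ A ∈ S, ∀ B ∈ S, ∃ P ∈ S, ∃ Q ∈ S, comp P A = comp Q B) ↔
          ∀ A ∈ S, ∀ B ∈ S, ∃ k l : ℕ, 1 ≤ k ∧ 1 ≤ l ∧
            (comp A)^[2 * k] RatFunc.X =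
              comp ((comp A)^[k] RatFunc.X) ((comp B)^[l] RatFunc.X) ∧
            (comp B)^[2 * l] RatFunc.X =
              comp ((comp B)^[l] RatFunc.X) ((comp A)^[k] RatFunc.X)) := by
  intro comp deg special hcomp hdeg hspec S hS hS2 hns
  obtain ⟨P, hP, hPs⟩ := hns
  have ec : comp = Pool.Agent.Helper65.comp := by
    funext f g
    rw [hcomp]
    rfl
  have ed : deg = Pool.Agent.Helper65.deg := by
    funext f
    rw [hdeg]
    rfl
  subst ec
  subst ed
  have hPs' : ¬ Pool.Agent.Helper65.Special P := by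
    intro h
    apply hPs
    rw [hspec]
    rcases h with h | ⟨n, hn, h⟩
    · left
      have hP1 : 1 ≤ Pool.Agent.Helper65.deg P := le_trans one_le_two (hS2 P hP)
      exact Pool.Agent.Helper65.lattes_strict hP1 h
    · right
      rcases h with ⟨M, hM, h⟩ | ⟨M, hM, h⟩ | ⟨M, hM, h⟩ | ⟨M, hM, h⟩
      · exact ⟨M, hM, n, Or.inl h⟩
      · refine ⟨M, hM, n, Or.inr (Or.inl ?_)⟩
        rw [h, one_div]
      · exact ⟨M, hM, n, Or.inr (Or.inr (Or.inl h))⟩
      · exact ⟨M, hM, n, Or.inr (Or.inr (Or.inr h))⟩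
  have h := Pool.Agent.Helper65.tfae_main ⟨P, hP⟩ hS hS2 hP hPs'
  exact h.out 1 2

end Pool.Agent.Helper65.Misc
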